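import Mathlib
import Pool.Agent.H11.Lef.Defs
import Pool.Agent.H11.Lef.Main

open Pool.Agent.H11.Lef in
theorem Pool.Agent.Results.MP_487945_co.Octahedron.result :
    ∀ (K : Type) [Field K] [CharP K 3] (i : K), i ^ 2 = -1 →
      ∃ t : Fin 3 × Bool → K, Function.Injective t ∧ (∀ v, t v ≠ 0) ∧
        ¬ Lefschetz (faceIdeal K octahedron ⊔ momentIdeal 3 t) 3 :=
  fun K _ _ i hi => Pool.Agent.H11.Lef.main K i hi
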